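import Pool.Agent.Lib.MP_610fe3_an.TD.Core
import Pool.Agent.Lib.MP_610fe3_an.H6N.Mfd
import Pool.Agent.Lib.MP_610fe3_an.Cf.Main4

/-!
# No expanding attractors: splittings and manifolds (module MFD)
-/

open Set Filter Function Bundle
open scoped Manifold ContDiff Topology Uniformity

namespace Pool.Agent.Lib.MP610fe3.TD

universe u v

/-- `S` contains long continua which are contracted by `g`. -/
def Long {M : Type*} [MetricSpace M] (g : M → M) (S : Set M) (ε : ℝ) : Prop :=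
  ∃ x ∈ S, ∀ j : ℕ, ∃ K ⊆ S, IsCompact K ∧ IsConnected K ∧ x ∈ K ∧
    Tendsto (fun n : ℕ => Metric.diam (g^[n] '' K)) atTop (𝓝 0) ∧
    ε ≤ Metric.diam (g^[j] '' K)

/-- The same in terms of the uniform structure. -/
def LongU {M : Type*} [UniformSpace M] (g : M → M) (S : Set M) (V : Set (M × M)) : Prop :=
  ∃ x ∈ S, ∀ j : ℕ, ∃ K ⊆ S, IsCompact K ∧ IsConnected K ∧ x ∈ K ∧
    (∀ W ∈ 𝓤 M, ∀ᶠ n : ℕ in atTop, ∀ y ∈ K, ∀ z ∈ K, (g^[n] y, g^[n] z) ∈ W) ∧
    ∃ y ∈ K, ∃ z ∈ K, (g^[j] y, g^[j] z) ∉ V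

theorem LongU.mono {M : Type*} [UniformSpace M] {g : M → M} {S : Set M} {V V' : Set (M × M)}
    (h : LongU g S V) (hV : V' ⊆ V) : LongU g S V' := by
  obtain ⟨x, hx, H⟩ := h
  refine ⟨x, hx, fun j => ?_⟩
  obtain ⟨K, hK, h1, h2, h3, h4, y, hy, z, hz, h5⟩ := H j
  exact ⟨K, hK, h1, h2, h3, h4, y, hy, z, hz, fun h => h5 (hV h)⟩

/-- From the uniform version to the metric version. -/
theorem LongU.long {M : Type*} [MetricSpace M] [CompactSpace M] {g : M → M}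
    {S : Set M} {ε : ℝ} (h : LongU g S {p | dist p.1 p.2 < ε}) : Long g S ε := by
  obtain ⟨x, hx, H⟩ := h
  refine ⟨x, hx, fun j => ?_⟩
  obtain ⟨K, hK, h1, h2, h3, h4, y, hy, z, hz, h5⟩ := H j
  refine ⟨K, hK, h1, h2, h3, ?_, ?_⟩
  · rw [Metric.tendsto_atTop]
    intro η hη
    obtain ⟨N, hN⟩ := eventually_atTop.1 (h4 _ (Metric.dist_mem_uniformity (half_pos hη)))
    refine ⟨N, fun n hn => ?_⟩
    rw [Real.dist_0_eq_abs, abs_of_nonneg Metric.diam_nonneg]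
    refine lt_of_le_of_lt (Metric.diam_le_of_forall_dist_le (half_pos hη).le ?_) (half_lt_self hη)
    rintro _ ⟨p, hp, rfl⟩ _ ⟨q, hq, rfl⟩
    exact (hN n hn p hp q hq).le
  · have h6 : ε ≤ dist (g^[j] y) (g^[j] z) := not_lt.1 h5
    refine h6.trans (Metric.dist_le_diam_of_mem ?_ ⟨y, hy, rfl⟩ ⟨z, hz, rfl⟩)
    exact (isCompact_univ.isBounded).subset (subset_univ _)

open TM N3

/-- Long unstable continua are long continua. -/
theorem longU_of_unb {X : Type*} [MetricSpace X] {f : X ≃ₜ X} {U : Set X} {e C a ε : ℝ}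
    {S : Set X} (R : Rates f U e C a a a) (he : ε ≤ e) (h : Unb f S ε) :
    LongU f.symm S {p | dist p.1 p.2 < ε / C} := by
  have hC := R.C1
  have ha := R.a0
  obtain ⟨x, hx, H⟩ := h
  refine ⟨x, hx, fun j => ?_⟩
  obtain ⟨K, hK, hKc, hKS, hxK, h1, y, hy, i, hi, h2⟩ := H j
  have hSp : ∀ z ∈ K, ev f (-(j : ℤ)) z ∈ Sp f.symm e (ev f (-(j : ℤ)) x) := by
    intro z hz
    rw [mem_Sp_symm]
    intro k
    have h3 := h1 z hz (k + j) (by omega)
    rw [← ev_add, ← ev_add, show -(k : ℤ) + -(j : ℤ) = -((k + j : ℕ) : ℤ) by push_cast; ring]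
    exact h3.trans he
  have hdec : ∀ z ∈ K, ∀ k : ℕ, dist (ev f (-((k + j : ℕ) : ℤ)) z) (ev f (-((k + j : ℕ) : ℤ)) x) ≤
      C * Real.exp (-(a * k)) * dist (ev f (-(j : ℤ)) z) (ev f (-(j : ℤ)) x) := by
    intro z hz k
    have h3 := R.un _ _ (hSp z hz) k
    rw [← ev_add, ← ev_add, show -(k : ℤ) + -(j : ℤ) = -((k + j : ℕ) : ℤ) by
      push_cast; ring] at h3
    exact h3
  refine ⟨K, hKS, hK, hKc, hxK, fun W hW => ?_, y, hy, x, hxK, ?_⟩
  · obtain ⟨η, hη, hW'⟩ := Metric.mem_uniformity_dist.1 hW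
    have e1 : Tendsto (fun k : ℕ => a * (k : ℝ)) atTop atTop :=
      Tendsto.const_mul_atTop ha tendsto_natCast_atTop_atTop
    have e2 := ((Real.tendsto_exp_neg_atTop_nhds_zero.comp e1).const_mul C).mul_const e
    have e3 : Tendsto (fun k : ℕ => C * Real.exp (-(a * k)) * e) atTop (𝓝 0) := by
      simpa using e2
    obtain ⟨N, hN⟩ := eventually_atTop.1 (e3.eventually_lt_const (half_pos hη))
    refine eventually_atTop.2 ⟨N + j, fun n hn z hz w hw => hW' ?_⟩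
    obtain ⟨k, rfl⟩ : ∃ k, n = k + j := ⟨n - j, by omega⟩
    have h4 : ∀ z ∈ K, dist (ev f (-((k + j : ℕ) : ℤ)) z) (ev f (-((k + j : ℕ) : ℤ)) x) <
        η / 2 := by
      intro z hz
      have h5 : dist (ev f (-(j : ℤ)) z) (ev f (-(j : ℤ)) x) ≤ e := Sp_dist (hSp z hz)
      refine (hdec z hz k).trans_lt (lt_of_le_of_lt ?_ (hN k (by omega)))
      gcongr
    rw [← ev_neg_nat, ← ev_neg_nat]
    have h5 := dist_triangle_right (ev f (-((k + j : ℕ) : ℤ)) z) (ev f (-((k + j : ℕ) : ℤ)) w)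
      (ev f (-((k + j : ℕ) : ℤ)) x)
    have h6 := h4 z hz
    have h7 := h4 w hw
    linarith
  · simp only [mem_ofPred_eq, not_lt]
    rw [← ev_neg_nat, ← ev_neg_nat, div_le_iff₀ (by linarith)]
    obtain ⟨k, rfl⟩ : ∃ k, i = k + j := ⟨i - j, by omega⟩
    have h3 := hdec y hy k
    have h4 : Real.exp (-(a * k)) ≤ 1 := by
      rw [Real.exp_le_one_iff]
      have : 0 ≤ a * k := by positivity
      linarith
    have h5 : (0 : ℝ) ≤ dist (ev f (-(j : ℤ)) y) (ev f (-(j : ℤ)) x) := dist_nonneg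
    calc ε ≤ _ := h2
      _ ≤ _ := h3
      _ ≤ C * 1 * dist (ev f (-(j : ℤ)) y) (ev f (-(j : ℤ)) x) := by gcongr
      _ = _ := by ring

section Abstract

variable {M : Type v} {W : Type u} [MetricSpace M] [CompactSpace M] [NormedAddCommGroup W]
  [InnerProductSpace ℝ W] [FiniteDimensional ℝ W] {E : Emb M W} {f : M ≃ₜ M}

/-- The hypotheses of the abstract theorem. -/
theorem exists_base [ConnectedSpace M] (s : Split E f) (hs : s.Hyperbolic) :
    ∃ e C a e₁ : ℝ, 0 < e₁ ∧ (∀ U : Set M, Rates f U e C a a a) ∧ Reaches₀ f e₁ ∧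
      Reaches₀ f.symm e₁ := by
  obtain ⟨ε₁, C₁, l₁, hD₁⟩ := Cf.exists_dec s hs
  obtain ⟨ε₂, C₂, l₂, hD₂⟩ := Cf.exists_dec s.swap hs.swap
  obtain ⟨ds, hds⟩ := Cf.exists_rank s hs
  obtain ⟨du, hdu⟩ := Cf.exists_rank s.swap hs.swap
  obtain ⟨b₁, e₃, he₃, hR₃⟩ := H6.exists_crude_reach s hs hds
  obtain ⟨b₂, e₄, he₄, hR₄⟩ := H6.exists_crude_reach s.swap hs.swap hdu
  obtain ⟨εB, CB, hBr⟩ := Cf.br M W E f s hs
  set l : ℝ := max l₁ l₂ with hl
  have hl0 : 0 < l := hD₁.l_pos.trans_le (le_max_left _ _)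
  have hl1 : l < 1 := max_lt hD₁.l_lt hD₂.l_lt
  set a : ℝ := -Real.log l with ha
  have ha0 : 0 < a := by
    rw [ha]
    have := Real.log_neg hl0 hl1
    linarith
  have hexp : ∀ j : ℕ, l ^ j = Real.exp (-(a * j)) := by
    intro j
    rw [ha, neg_mul, neg_neg, mul_comm, Real.exp_nat_mul, Real.exp_log hl0]
  have hε : 0 < min ε₁ ε₂ := lt_min hD₁.ε_pos hD₂.ε_pos
  have hC : 1 ≤ max C₁ C₂ := hD₁.one_le.trans (le_max_left _ _)
  refine ⟨min ε₁ ε₂, max C₁ C₂, a, min e₃ e₄, lt_min he₃ he₄, fun U => ?_, ?_, ?_⟩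
  · have hun : ∀ p q, q ∈ Sp f.symm (min ε₁ ε₂) p → ∀ j : ℕ,
        dist (ev f (-j) q) (ev f (-j) p) ≤ max C₁ C₂ * Real.exp (-(a * j)) * dist q p := by
      intro p q hq j
      rw [Sp_eq_Wl] at hq
      have h3 := hD₂.dec p q (Cf.Wl_mono (min_le_right _ _) hq) j
      rw [ev_neg_nat, ev_neg_nat, ← hexp]
      refine h3.trans ?_
      have h4 := hD₂.l_pos
      have h5 : l₂ ≤ l := le_max_right _ _
      gcongr
      exact le_max_right _ _
    refine ⟨hε, hC, ha0, ha0, hun, fun p q hq i _ => hun p q hq i, fun p q hq j => ?_,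
      fun e' he' => ?_⟩
    · rw [Sp_eq_Wl] at hq
      have h3 := hD₁.dec p q (Cf.Wl_mono (min_le_left _ _) hq) j
      rw [ev_nat, ev_nat, ← hexp]
      refine h3.trans ?_
      have h4 := hD₁.l_pos
      have h5 : l₁ ≤ l := le_max_left _ _
      gcongr
      exact le_max_left _ _
    · simp only [Sp_eq_Wl]
      exact hBr.exist e' he'
  · exact ((hR₄.mono subset_rfl (min_le_right _ _) le_rfl).reachW hD₂).reaches₀
  · exact ((hR₃.mono subset_rfl (min_le_left _ _) le_rfl).reachW (f := f.symm) hD₁).reaches₀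

/-- One side. -/
theorem side_td (hItr : SpecItr.{v}) (hLim : SpecLim.{v}) [ConnectedSpace M] (s : Split E f)
    (hs : s.Hyperbolic) : ∃ ε : ℝ, 0 < ε ∧ ∀ U : Set M, Trap f U → U.Nonempty → U ≠ univ →
      LongU f.symm (Rep f U) {p | dist p.1 p.2 < ε} := by
  obtain ⟨e, C, a, e₁, he₁, R, h0, h0'⟩ := exists_base s hs
  have he := (R univ).e0
  have hC := (R univ).C1
  obtain ⟨δ, hδ, hbr⟩ := (R univ).br (e / 4) (by positivity)
  set e₀ : ℝ := min e (δ / 4) with he₀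
  have he₀0 : 0 < e₀ := by positivity
  have h4 : 4 * e₀ ≤ δ := by
    have : e₀ ≤ δ / 4 := min_le_right _ _
    linarith
  refine ⟨e₀ / C, by positivity, fun U hU hne huniv => ?_⟩
  exact longU_of_unb (R U) (min_le_left _ _) (core hItr hLim (R U) hU
    (H6.frontier_nonempty_of_trap hne huniv) he₁ h0 h0' he₀0 (min_le_left _ _)
    fun x y hxy => hbr x y (hxy.trans_le h4))

/-- Both sides. -/
theorem split_td (hItr : SpecItr.{v}) (hLim : SpecLim.{v}) [ConnectedSpace M] (s : Split E f)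
    (hs : s.Hyperbolic) : ∃ V ∈ 𝓤 M, ∀ U : Set M, IsOpen U → U.Nonempty → U ≠ univ →
      f '' closure U ⊆ U → LongU f {x | ∀ n : ℕ, f.symm^[n] x ∈ U} V ∧
        LongU f.symm {x | ∀ n : ℕ, f^[n] x ∉ U} V := by
  obtain ⟨ε₁, hε₁, h₁⟩ := side_td hItr hLim s hs
  obtain ⟨ε₂, hε₂, h₂⟩ := side_td hItr hLim s.swap hs.swap
  refine ⟨{p | dist p.1 p.2 < min ε₁ ε₂}, Metric.dist_mem_uniformity (lt_min hε₁ hε₂),
    fun U hU hne huniv htrap => ?_⟩
  have hT : Trap f U := ⟨hU, fun x hx => htrap ⟨x, hx, rfl⟩⟩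
  have hA : {x | ∀ n : ℕ, f.symm^[n] x ∈ U} = Att f U := by
    ext x
    simp only [Att, mem_ofPred_eq, ev_neg_nat]
  have hR : {x | ∀ n : ℕ, f^[n] x ∉ U} = Rep f U := by
    ext x
    simp only [N3.Rep, mem_ofPred_eq, ev_nat]
  rw [hA, hR]
  have hcl : closure U ≠ univ := by
    intro h
    refine huniv (eq_univ_of_univ_subset ?_)
    rw [← f.surjective.range_eq, ← image_univ, ← h]
    exact htrap
  constructor
  · have h3 := h₂ (closure U)ᶜ hT.dual (nonempty_compl.2 hcl) (by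
      intro h
      rw [compl_univ_iff] at h
      exact hne.ne_empty (subset_eq_empty subset_closure h))
    rw [rep_dual hT] at h3
    refine h3.mono fun p hp => ?_
    simp only [mem_ofPred_eq] at hp ⊢
    exact hp.trans_le (min_le_right _ _)
  · refine (h₁ U hT hne huniv).mono fun p hp => ?_
    simp only [mem_ofPred_eq] at hp ⊢
    exact hp.trans_le (min_le_left _ _)

end Abstract

section Manifold

variable {V : Type*} [NormedAddCommGroup V] [NormedSpace ℝ V] [FiniteDimensional ℝ V] {N : ℕ}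
  {M : Type v} [MetricSpace M] [CompactSpace M] [ConnectedSpace M]
  [ChartedSpace V M] [IsManifold 𝓘(ℝ, V) ∞ M]
  [RiemannianBundle (fun x : M => TangentSpace 𝓘(ℝ, V) x)]
  [IsContinuousRiemannianBundle V (fun x : M => TangentSpace 𝓘(ℝ, V) x)]

/-- The manifold version for the metric of an embedding. -/
theorem mfd_td (hItr : SpecItr.{v}) (hLim : SpecLim.{v}) (e : M → EuclideanSpace ℝ (Fin N))
    (hiso : Isometry e) (he : ContMDiff 𝓘(ℝ, V) (𝓡 N) ∞ e)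
    (hinj : ∀ x, Injective (mfderiv 𝓘(ℝ, V) (𝓡 N) e x))
    (f : M ≃ₘ^1⟮𝓘(ℝ, V), 𝓘(ℝ, V)⟯ M)
    (Es Eu : ∀ x : M, Submodule ℝ (TangentSpace 𝓘(ℝ, V) x))
    (hA : Gen.IsAnosovSplitting f Es Eu) :
    (∃ S ∈ 𝓤 M, ∀ U : Set M, IsOpen U → U.Nonempty → U ≠ univ → f '' closure U ⊆ U →
      LongU f {x | ∀ n : ℕ, (⇑f.symm)^[n] x ∈ U} S ∧
        LongU f.symm {x | ∀ n : ℕ, (⇑f)^[n] x ∉ U} S) ∧
    (TopTransitive f ∨ ∃ U : Set M, IsOpen U ∧ U.Nonempty ∧ U ≠ univ ∧ f '' closure U ⊆ U) := by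
  obtain ⟨E, hE, hEP, hr⟩ := Gen.exists_emb e hiso he hinj
  subst hE
  obtain ⟨s, hsH, hsS, hsU⟩ := Gen.exists_split E he hinj hr f Es Eu hA
  refine ⟨split_td hItr hLim s hsH, ?_⟩
  by_cases hct : ChainTransitive f
  · exact Or.inl (topTransitive_of_shadowing (s.shadowing hsH) hct)
  · obtain ⟨U, hU, hne, huniv⟩ := Cf.H1.exists_trap (f := f.toHomeomorph) hct
    exact Or.inr ⟨U, hU.1, hne, huniv, hU.2.image_subset⟩

end Manifold

end Pool.Agent.Lib.MP610fe3.TD
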