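import Pool.Agent.Lib.MP_610fe3_an.TD.Spec

/-!
# Grouping of links
-/

open Set Filter Function
open scoped Topology

namespace Pool.Agent.Lib.MP610fe3.TD

open TM N3

universe u

namespace GrpM

variable {X : Type*} [MetricSpace X] {f : X ≃ₜ X} {U : Set X} {e C a r : ℝ}

/-- After a long time all links are small. -/
theorem exists_small (R : Rates f U e C a a a) {η : ℝ} (hη : 0 < η) :
    ∃ k₀ : ℕ, ∀ k ≥ k₀, ∀ p q : X, Link f e r p q →
      dist (ev f (-(k : ℤ)) q) (ev f (-(k : ℤ)) p) ≤ η := by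
  have hC := R.C1
  have h1 : Tendsto (fun n : ℕ => C * Real.exp (-(a * n)) * r) atTop (𝓝 0) := by
    have h2 : Tendsto (fun n : ℕ => a * (n : ℝ)) atTop atTop :=
      Tendsto.const_mul_atTop R.a0 tendsto_natCast_atTop_atTop
    have h3 := (Real.tendsto_exp_neg_atTop_nhds_zero.comp h2)
    have h4 := (h3.const_mul C).mul_const r
    simpa using h4
  obtain ⟨k₀, hk₀⟩ := eventually_atTop.1 (h1.eventually (gt_mem_nhds hη))
  refine ⟨k₀, fun k hk p q h => ?_⟩
  have h2 := R.un p q h.2 k
  have h3 : C * Real.exp (-(a * k)) * dist q p ≤ C * Real.exp (-(a * k)) * r :=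
    mul_le_mul_of_nonneg_left h.1 (by positivity)
  exact (h2.trans h3).trans (hk₀ k hk).le

end GrpM

open GrpM in
theorem specGrp : SpecGrp.{u} := by
  intro X _ f U e C a r R hr
  have he := R.e0
  obtain ⟨k₀, hk₀⟩ := exists_small R (r := 2 * r) (η := min (r / 2) (e / 2))
    (lt_min (by linarith) (by linarith))
  refine ⟨k₀, fun k hk K p q hch => ?_⟩
  obtain ⟨s, hs0, hsK, hs⟩ := hch
  -- small links at the time `-k`
  have hlink : ∀ i < K, Link f (e / 2) (r / 2) (ev f (-(k : ℤ)) (s i))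
      (ev f (-(k : ℤ)) (s (i + 1))) := by
    intro i hi
    refine ⟨(hk₀ k hk _ _ (hs i hi)).trans (min_le_left _ _), ?_⟩
    rw [mem_Sp_symm]
    intro j
    rw [← ev_add, ← ev_add, show -(j : ℤ) + -(k : ℤ) = -((j + k : ℕ) : ℤ) by push_cast; ring]
    exact (hk₀ (j + k) (by omega) _ _ (hs i hi)).trans (min_le_right _ _)
  refine ⟨fun i => ev f (-(k : ℤ)) (s (min (2 * i) K)), ?_, ?_, fun i hi => ?_⟩
  · simp [hs0]
  · have h1 : min (2 * ((K + 1) / 2)) K = K := by omega
    simp only [h1, hsK]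
  · have h1 : min (2 * i) K = 2 * i := by omega
    simp only [h1]
    rcases lt_or_ge (2 * i + 1) K with h2 | h2
    · have h3 : min (2 * (i + 1)) K = 2 * i + 1 + 1 := by omega
      rw [h3]
      have h4 := hlink (2 * i) (by omega)
      have h5 := hlink (2 * i + 1) h2
      refine ⟨?_, ?_⟩
      · have h6 := dist_triangle (ev f (-(k : ℤ)) (s (2 * i + 1 + 1)))
          (ev f (-(k : ℤ)) (s (2 * i + 1))) (ev f (-(k : ℤ)) (s (2 * i)))
        have h7 := h4.1
        have h8 := h5.1
        linarith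
      · exact Sp_mono (by linarith) (Sp_trans h4.2 h5.2)
    · have h3 : min (2 * (i + 1)) K = 2 * i + 1 := by omega
      rw [h3]
      have h4 := hlink (2 * i) (by omega)
      exact ⟨h4.1.trans (by linarith), Sp_mono (by linarith) h4.2⟩

end Pool.Agent.Lib.MP610fe3.TD
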