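import Pool.Agent.Lib.MP_610fe3_an.TD.Spec

/-!
# No expanding attractors: transport along a stable chain (module ITR)
-/

open Set Filter Function
open scoped Topology

namespace Pool.Agent.Lib.MP610fe3.TD

open TM N3

universe u

variable {X : Type u} [MetricSpace X] [CompactSpace X] {f : X ≃ₜ X} {U : Set X}
  {e C a e₁ e₀ δ₀ r : ℝ} {m₀ J n m k₀ N S : ℕ}

/-- No point of the attractor is joined to the repeller. -/
theorem not_join_att (R : Rates f U e C a a a) (hT : Trap f U) {w : X} {K : ℕ}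
    (h : Join f U e r K w) : w ∉ Att f U := by
  obtain ⟨k', s, -, hs0, hs⟩ := h.exists_min
  have := hs.not_att R hT 0 (Nat.zero_le _)
  rwa [hs0] at this

/-- Transport along a stable chain. -/
theorem itr_aux (R : Rates f U e C a a a) (hT : Trap f U) (he₀ : 0 < e₀) (hr : 0 < r)
    (hbr : ∀ x y, dist x y < 4 * e₀ → ∃ z, z ∈ Sp f (e / 4) x ∧ z ∈ Sp f.symm (e / 4) y)
    (hTame : Tame f U e₀ δ₀ m₀ J)
    (hlev : ∀ (w : X) (K : ℕ), K ≤ N → Join f U e (2 * r) K w →
      ev f (-((n + k₀ : ℕ) : ℤ)) w ∉ U)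
    (hm : m = k₀ + m₀ + J) (hCr : 4 * (C * r) ≤ e) {ε : ℝ} (hε : C * ε ≤ e / 4) (hεe : ε < 2 * e₀)
    (h1 : C * Real.exp (-(a * (n + k₀ + m₀ : ℕ))) * (2 * r) ≤ δ₀)
    (h2 : 2 * S * (C * Real.exp (-(a * (n + m : ℕ))) * (e / 4)) ≤ r)
    {y : X} {K₀ : ℕ} (hK₀ : K₀ ≤ N) (hy : Join f U e r K₀ (ev f n y))
    {q : X} {l : ℕ} (hl : l ≤ S) (hc : Chn f.symm e ε l (ev f (-m) y) q) : q ∉ Att f U := by
  have hC := R.C1
  have he := R.e0
  have ha := R.a0
  obtain ⟨t, ht0, htK, ht⟩ := hc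
  set η : ℝ := C * Real.exp (-(a * (n + m : ℕ))) * (e / 4) with hη
  have hη0 : 0 ≤ η := by positivity
  have hrad : ∀ i ≤ l, r + 2 * i * η ≤ 2 * r := by
    intro i hi
    have h3 : (i : ℝ) ≤ S := by exact_mod_cast hi.trans hl
    have h4 : 2 * (i : ℝ) * η ≤ 2 * S * η := by gcongr
    linarith
  have key : ∀ i ≤ l, ∃ k ≤ N, Join f U e (r + 2 * i * η) k (ev f n (ev f m (t i))) := by
    intro i
    induction i with
    | zero =>
      intro _
      refine ⟨K₀, hK₀, ?_⟩
      rw [ht0, ev_ev_neg]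
      simpa using hy
    | succ i ih =>
      intro hi
      obtain ⟨k, hk, hj⟩ := ih (by omega)
      refine ⟨k, hk, ?_⟩
      obtain ⟨p, hp, s, hs0, hsk, hs⟩ := hj
      have hri := hrad i (by omega)
      have hr0 : 0 ≤ r + 2 * i * η := by positivity
      have hlink := ht i (by omega)
      have hst : t (i + 1) ∈ Sp f e (t i) := hlink.2
      have hst2 : ∀ j : ℕ, dist (ev f j (t (i + 1))) (ev f j (t i)) ≤ e / 4 := by
        intro j
        have h3 := R.st _ _ hst j
        have h6 : Real.exp (-(a * j)) ≤ 1 := by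
          rw [Real.exp_le_one_iff]
          have : 0 ≤ a * j := by positivity
          linarith
        have h8 : (0 : ℝ) ≤ dist (t (i + 1)) (t i) := dist_nonneg
        calc _ ≤ C * Real.exp (-(a * j)) * dist (t (i + 1)) (t i) := h3
          _ ≤ C * 1 * dist (t (i + 1)) (t i) := by gcongr
          _ ≤ C * 1 * ε := by
              have := hlink.1
              gcongr
          _ = C * ε := by ring
          _ ≤ e / 4 := hε
      -- the points of the chain at the time `-(n + k₀ + m₀)`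
      have hcol : ∀ j ≤ k, ev f m₀ (ev f (-((n + k₀ + m₀ : ℕ) : ℤ)) (s j)) ∉ U := by
        intro j hj
        have h3 : Join f U e (2 * r) (k - j) (s j) := by
          refine ⟨s k, by rw [hsk]; exact hp, ?_⟩
          exact (chn_tail hs hj).mono hri
        have h4 := hlev (s j) (k - j) (by omega) h3
        rw [← ev_add]
        convert h4 using 2
        push_cast
        ring_nf
      have hlk : ∀ j < k, Link f δ₀ δ₀ (ev f (-((n + k₀ + m₀ : ℕ) : ℤ)) (s j))
          (ev f (-((n + k₀ + m₀ : ℕ) : ℤ)) (s (j + 1))) := by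
        intro j hj
        have h3 : ∀ i' : ℕ, dist (ev f (-((n + k₀ + m₀ + i' : ℕ) : ℤ)) (s (j + 1)))
            (ev f (-((n + k₀ + m₀ + i' : ℕ) : ℤ)) (s j)) ≤ δ₀ := by
          intro i'
          have h4 := R.un _ _ (hs j hj).2 (n + k₀ + m₀ + i')
          have h5 : Real.exp (-(a * ((n + k₀ + m₀ + i' : ℕ) : ℝ))) ≤
              Real.exp (-(a * ((n + k₀ + m₀ : ℕ) : ℝ))) := by
            apply Real.exp_le_exp.2
            push_cast
            have : 0 ≤ a * (i' : ℝ) := by positivity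
            linarith
          have h6 := (hs j hj).1
          have h8 : (0 : ℝ) ≤ dist (s (j + 1)) (s j) := dist_nonneg
          calc _ ≤ C * Real.exp (-(a * ((n + k₀ + m₀ + i' : ℕ) : ℝ))) * dist (s (j + 1)) (s j) :=
                h4
            _ ≤ C * Real.exp (-(a * ((n + k₀ + m₀ : ℕ) : ℝ))) * (r + 2 * i * η) := by gcongr
            _ ≤ C * Real.exp (-(a * ((n + k₀ + m₀ : ℕ) : ℝ))) * (2 * r) := by gcongr
            _ ≤ δ₀ := h1
        refine ⟨by simpa using h3 0, ?_⟩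
        rw [mem_Sp_symm]
        intro i'
        have h4 := h3 i'
        rw [← ev_add, ← ev_add,
          show -(i' : ℤ) + -((n + k₀ + m₀ : ℕ) : ℤ) = -((n + k₀ + m₀ + i' : ℕ) : ℤ) by
            push_cast; ring]
        exact h4
      have hclose := hTame k (fun j => ev f (-((n + k₀ + m₀ : ℕ) : ℤ)) (s j)) hcol hlk
      have hsp : ∀ j ≤ k, dist (ev f (-((n + m : ℕ) : ℤ)) (s 0))
          (ev f (-((n + m : ℕ) : ℤ)) (s j)) < 4 * e₀ / 2 := by
        intro j hj
        have h3 := hclose j hj J le_rfl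
        simp only [← ev_add] at h3
        rw [show -(J : ℤ) + -((n + k₀ + m₀ : ℕ) : ℤ) = -((n + m : ℕ) : ℤ) by
          rw [hm]; push_cast; ring] at h3
        rw [dist_comm]
        linarith
      have h3 := transport (y' := ev f m (t (i + 1))) (n := n) (m := m) (e' := e / 4)
        (δ := 4 * e₀) R hT (by positivity) (by linarith) (r' := r + 2 * i * η)
        (by nlinarith) hbr hs0 (by rw [hsk]; exact hp) hs hsp (by
          rw [ev_neg_ev, ev_neg_ev]
          exact hst2) (by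
          rw [ev_neg_ev, ev_neg_ev]
          exact hlink.1.trans_lt (by linarith))
      rw [← hη] at h3
      have h4 : r + 2 * ((i + 1 : ℕ) : ℝ) * η = r + 2 * i * η + 2 * η := by
        push_cast
        ring
      rw [h4]
      exact h3
  intro hq
  obtain ⟨k, -, hj⟩ := key l le_rfl
  refine not_join_att R hT hj ?_
  rw [htK]
  exact att_ev hT (att_ev hT hq m) n

theorem specItr (hLev : SpecLev.{u}) (hStb : SpecStb.{u}) : SpecItr.{u} := by
  intro X _ _ f U e C a e₁ e₀ δ₀ m₀ J R hT hfr he₁ h0 h0' he₀ hδ₀ hbr hTame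
  have hC := R.C1
  have he := R.e0
  have ha := R.a0
  -- the radius
  obtain ⟨η, hη, hmar⟩ := hT.exists_margin
  set r : ℝ := min (e / (4 * C)) (η / 4) with hr
  have hr0 : 0 < r := by positivity
  have hCr : 4 * (C * r) ≤ e := by
    have h1 : r ≤ e / (4 * C) := min_le_left _ _
    calc 4 * (C * r) ≤ 4 * (C * (e / (4 * C))) := by gcongr
      _ = e := by field_simp
  have hrη : 2 * r < η := by
    have h1 : r ≤ η / 4 := min_le_right _ _
    linarith
  obtain ⟨k₀, hk₀⟩ := hLev X f U e C a r R hT hr0 fun x hx y hy => hmar x hx y (hy.trans_lt hrη)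
  set m : ℕ := k₀ + m₀ + J with hm
  -- the stable chains
  set ε : ℝ := min (e / (4 * C)) e₀ with hε
  have hε0 : 0 < ε := by positivity
  have hε1 : C * ε ≤ e / 4 := by
    have h1 : ε ≤ e / (4 * C) := min_le_left _ _
    calc C * ε ≤ C * (e / (4 * C)) := by gcongr
      _ = e / 4 := by field_simp
  have hε2 : ε < 2 * e₀ := by
    have h1 : ε ≤ e₀ := min_le_right _ _
    linarith
  have hbr' : ∀ e' : ℝ, 0 < e' → ∃ δ : ℝ, 0 < δ ∧ ∀ x y, dist x y < δ →
      ∃ z, z ∈ Sp f.symm e' x ∧ z ∈ Sp f.symm.symm e' y := by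
    intro e' he'
    obtain ⟨δ, hδ, h⟩ := R.br e' he'
    refine ⟨δ, hδ, fun x y hxy => ?_⟩
    rw [dist_comm] at hxy
    obtain ⟨z, hz1, hz2⟩ := h _ _ hxy
    exact ⟨z, hz2, hz1⟩
  obtain ⟨S, hS⟩ := hStb X f.symm (closure U)ᶜ e e₁ ε m hT.dual he he₁ hε0 (fun p q h => by
    have := R.un_tendsto h
    simpa only [ev_symm] using this) hbr' h0'
  -- the time `n`
  have lim : ∀ (c : ℝ) (i : ℕ), Tendsto (fun n : ℕ => C * Real.exp (-(a * (n + i : ℕ))) * c)
      atTop (𝓝 0) := by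
    intro c i
    have e1 : Tendsto (fun n : ℕ => a * ((n + i : ℕ) : ℝ)) atTop atTop :=
      Tendsto.const_mul_atTop ha (tendsto_natCast_atTop_atTop.comp (tendsto_add_atTop_nat i))
    have e2 := ((Real.tendsto_exp_neg_atTop_nhds_zero.comp e1).const_mul C).mul_const c
    simpa using e2
  obtain ⟨n, hn1, hn2, hn3⟩ : ∃ n : ℕ, 1 ≤ n ∧
      C * Real.exp (-(a * (n + (k₀ + m₀) : ℕ))) * (2 * r) ≤ δ₀ ∧
      C * Real.exp (-(a * (n + m : ℕ))) * (2 * S * (e / 4)) ≤ r := by
    have l1 := (lim (2 * r) (k₀ + m₀)).eventually_le_const hδ₀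
    have l2 := (lim (2 * S * (e / 4)) m).eventually_le_const hr0
    exact ((eventually_ge_atTop 1).and (l1.and l2)).exists
  -- the least number of links over the fundamental domain
  classical
  obtain ⟨K₁, hK₁⟩ := hStb X f U e e₁ r n hT he he₁ hr0 (fun p q h => R.st_tendsto h) R.br h0
  have hex : ∃ N : ℕ, ∃ z ∈ U, ev f (-1) z ∉ U ∧ Join f U e r N (ev f n z) := by
    obtain ⟨y, hy⟩ := hfr
    rw [hT.isOpen.frontier_eq] at hy
    have h1 : ev f (-1) (f y) = y := by
      rw [← ev_one (f := f), ev_neg_ev]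
    obtain ⟨k, -, hj⟩ := hK₁ (f y) (by rw [h1]; exact hy.2)
    exact ⟨k, f y, hT.maps y hy.1, by rw [h1]; exact hy.2, hj⟩
  obtain ⟨x₀, hx₀, hx₀', hx₀j⟩ := Nat.find_spec hex
  set N : ℕ := Nat.find hex with hN
  have hmin : ∀ z ∈ U, ev f (-1) z ∉ U → ∀ K : ℕ, Join f U e r K (ev f n z) → N ≤ K :=
    fun z hz hz' K hK => Nat.find_min' hex ⟨z, hz, hz', hK⟩
  obtain ⟨l, hl, q, hq, hc⟩ := hS x₀ (by
    rw [mem_compl_iff, not_not, ev_symm, neg_neg, ev_one]
    exact subset_closure (hT.maps _ (subset_closure hx₀)))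
  rw [rep_dual hT] at hq
  rw [ev_symm] at hc
  refine itr_aux (m := m) (S := S) R hT he₀ hr0 hbr hTame (hk₀ n N hn1 hmin) hm hCr hε1 hε2
    (by rwa [add_assoc]) (by linarith) le_rfl hx₀j hl hc hq

end Pool.Agent.Lib.MP610fe3.TD
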