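import Pool.Agent.Lib.MP_610fe3_an.TD.Spec

/-!
# Points at a small cost are at a small level
-/

open Set Filter Function
open scoped Topology

namespace Pool.Agent.Lib.MP610fe3.TD

open TM N3

universe u

namespace LevM

variable {X : Type*} [MetricSpace X] {f : X ≃ₜ X} {U : Set X} {e C a r : ℝ}

theorem rep_not_mem {x : X} (hx : x ∈ Rep f U) : x ∉ U := by simpa using hx 0

/-- The repeller is invariant under `f⁻¹`. -/
theorem rep_neg (hT : Trap f U) {x : X} (hx : x ∈ Rep f U) (k : ℕ) :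
    ev f (-(k : ℤ)) x ∈ Rep f U := by
  intro n
  rw [← ev_add]
  rcases le_or_gt k n with h | h
  · obtain ⟨i, rfl⟩ := Nat.exists_eq_add_of_le h
    rw [show ((k + i : ℕ) : ℤ) + -(k : ℤ) = (i : ℤ) by push_cast; ring]
    exact hx i
  · obtain ⟨i, rfl⟩ := Nat.exists_eq_add_of_lt h
    rw [show (n : ℤ) + -((n + i + 1 : ℕ) : ℤ) = -((i + 1 : ℕ) : ℤ) by push_cast; ring]
    exact hT.bwd (rep_not_mem hx) (i + 1)

/-- No chain of unstable links joins the attractor to the repeller. -/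
theorem not_att [CompactSpace X] (R : Rates f U e C a a a) (hT : Trap f U) {w : X} {K : ℕ}
    (h : Join f U e r K w) : w ∉ Att f U := by
  intro hw
  obtain ⟨q, hq, s, hs0, hsK, hs⟩ := h
  have key : ∀ i ≤ K, s i ∈ Att f U := by
    intro i
    induction i with
    | zero => intro _; rwa [hs0]
    | succ i ih =>
      intro hi
      exact att_sat hT (ih (by omega)) (R.un_tendsto (hs i (by omega)).2)
  have h1 := key K le_rfl
  rw [hsK] at h1
  exact Set.disjoint_left.1 att_rep_disjoint h1 hq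

end LevM

open LevM in
theorem specLev (hG : SpecGrp.{u}) : SpecLev.{u} := by
  intro X _ _ f U e C a r R hT hr hmar
  obtain ⟨k₀, hk₀⟩ := hG X f U e C a r R hr
  refine ⟨k₀, fun n N hn hN w K hK hJ hv => ?_⟩
  classical
  -- the points `f^-t w`, `t ≤ n + k₀`, are in `U`
  have hin : ∀ t ≤ n + k₀, ev f (-(t : ℤ)) w ∈ U := by
    intro t ht
    obtain ⟨i, hi⟩ := Nat.exists_eq_add_of_le ht
    have h1 := hT.fwd hv i
    rw [← ev_add] at h1
    rw [hi] at h1
    rwa [show (i : ℤ) + -((t + i : ℕ) : ℤ) = -(t : ℤ) by push_cast; ring] at h1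
  have hex : ∃ i : ℕ, ev f (-(i : ℤ)) w ∉ U := by
    have h1 := not_att R hT hJ
    simp only [Att, mem_ofPred_eq, not_forall] at h1
    exact h1
  set i := Nat.find hex with hi
  have hi1 : ev f (-(i : ℤ)) w ∉ U := Nat.find_spec hex
  have hi2 : ∀ t < i, ev f (-(t : ℤ)) w ∈ U := by
    intro t ht
    have := Nat.find_min hex ht
    push Not at this
    exact this
  have hi3 : n + k₀ < i := by
    by_contra h
    exact hi1 (hin i (by omega))
  obtain ⟨k, hk⟩ := Nat.exists_eq_add_of_lt (show n < i by omega)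
  have hkk : k₀ ≤ k := by omega
  -- the point `z` of the fundamental domain
  have hz1 : ev f (-((n + k : ℕ) : ℤ)) w ∈ U := hi2 _ (by omega)
  have hz2 : ev f (-1) (ev f (-((n + k : ℕ) : ℤ)) w) ∉ U := by
    rw [← ev_add, show (-1 : ℤ) + -((n + k : ℕ) : ℤ) = -((n + k + 1 : ℕ) : ℤ) by push_cast; ring,
      ← hk]
    exact hi1
  obtain ⟨q, hq, hch⟩ := hJ
  have h1 := hk₀ k hkk K w q hch
  have h2 : ev f n (ev f (-((n + k : ℕ) : ℤ)) w) = ev f (-(k : ℤ)) w := by
    rw [← ev_add]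
    congr 1
    push_cast
    ring
  have h3 : Join f U e r ((K + 1) / 2) (ev f n (ev f (-((n + k : ℕ) : ℤ)) w)) := by
    rw [h2]
    exact ⟨_, rep_neg hT hq k, h1⟩
  have h4 := hN _ hz1 hz2 _ h3
  have h5 : K = 0 ∨ K = 1 := by omega
  have hw : w ∈ U := by simpa using hin 0 (by omega)
  rcases h5 with rfl | rfl
  · obtain ⟨s, hs0, hsK, -⟩ := hch
    rw [hs0] at hsK
    rw [← hsK] at hq
    exact rep_not_mem hq hw
  · obtain ⟨s, hs0, hsK, hs⟩ := hch
    have h6 := (hs 0 (by omega)).1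
    rw [zero_add, hs0, hsK] at h6
    have h7 : ev f (-((1 : ℕ) : ℤ)) w ∈ U := hin 1 (by omega)
    refine rep_not_mem hq (hmar _ h7 q ?_)
    have h8 : f (ev f (-((1 : ℕ) : ℤ)) w) = w := by
      rw [← ev_one, ← ev_add]
      simp
    rw [h8]
    exact h6

end Pool.Agent.Lib.MP610fe3.TD
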