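import Pool.Agent.Lib.MP_610fe3_an.TD.Spec

/-!
# Wandering chains converge to a long continuum
-/

open Set Filter Function
open scoped Topology

namespace Pool.Agent.Lib.MP610fe3.TD

open TM N3

namespace LimM

universe u

variable {X : Type u} [MetricSpace X]

/-- The upper limit of sets along a filter. -/
def Lst (F : Filter ℕ) (S : ℕ → Set X) : Set X :=
  {y | ∀ ε : ℝ, 0 < ε → ∀ᶠ n in F, ∃ p ∈ S n, dist p y < ε}

theorem isClosed_lst (F : Filter ℕ) (S : ℕ → Set X) : IsClosed (Lst F S) := by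
  rw [← closure_subset_iff_isClosed]
  intro y hy ε hε
  obtain ⟨z, hz, hyz⟩ := Metric.mem_closure_iff.1 hy (ε / 2) (by positivity)
  filter_upwards [hz (ε / 2) (by positivity)] with n hn
  obtain ⟨p, hp, hpz⟩ := hn
  refine ⟨p, hp, ?_⟩
  have := dist_triangle p z y
  rw [dist_comm y z] at hyz
  linarith

theorem lim_mem {F : Filter ℕ} {S : ℕ → Set X} {p : ℕ → X} {y : X}
    (hp : ∀ᶠ n in F, p n ∈ S n) (hy : Tendsto p F (𝓝 y)) : y ∈ Lst F S := by
  intro ε hε
  filter_upwards [hp, (Metric.tendsto_nhds.1 hy) ε hε] with n h1 h2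
  exact ⟨p n, h1, h2⟩

variable [CompactSpace X]

/-- Open neighbourhoods of the limit eventually contain the sets. -/
theorem sub_of_open (F : Ultrafilter ℕ) {S : ℕ → Set X} {O : Set X} (hO : IsOpen O)
    (h : Lst F S ⊆ O) : ∀ᶠ n in (F : Filter ℕ), S n ⊆ O := by
  by_contra hnot
  have h1 : ∀ᶠ n in (F : Filter ℕ), ∃ p, p ∈ S n ∧ p ∉ O := by
    have h2 := Ultrafilter.eventually_not.2 hnot
    filter_upwards [h2] with n hn
    rw [Set.not_subset] at hn
    exact hn
  have h3 : ∀ n, ∃ p : X, (∃ p, p ∈ S n ∧ p ∉ O) → p ∈ S n ∧ p ∉ O := by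
    intro n
    by_cases hn : ∃ p, p ∈ S n ∧ p ∉ O
    · obtain ⟨p, hp⟩ := hn
      exact ⟨p, fun _ => hp⟩
    · obtain ⟨n0, ⟨p, -⟩⟩ := h1.exists
      exact ⟨p, fun h => absurd h hn⟩
  choose p hp using h3
  obtain ⟨y, hy⟩ : ∃ y, Tendsto p F (𝓝 y) := by
    have h4 := isCompact_univ.ultrafilter_le_nhds (F.map p) (by simp)
    obtain ⟨y, -, hy⟩ := h4
    exact ⟨y, hy⟩
  have h5 : y ∈ Lst F S := lim_mem (by filter_upwards [h1] with n hn using (hp n hn).1) hy
  have h6 : ∀ᶠ n in (F : Filter ℕ), p n ∈ O := hy (hO.mem_nhds (h h5))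
  obtain ⟨n, h7, h8⟩ := (h6.and h1).exists
  exact (hp n h8).2 h7

/-- The limit of finer and finer chains is preconnected. -/
theorem preconn (F : Ultrafilter ℕ) (hF : (F : Filter ℕ) ≤ atTop) (s : ℕ → ℕ → X) (I : ℕ → ℕ)
    (hs : ∀ n i, i + 1 < I n → dist (s n (i + 1)) (s n i) ≤ 1 / ((n : ℝ) + 1)) :
    IsPreconnected (Lst F fun n => {p | ∃ i < I n, s n i = p}) := by
  set S : ℕ → Set X := fun n => {p | ∃ i < I n, s n i = p} with hS
  rw [isPreconnected_iff_subset_of_fully_disjoint_closed (isClosed_lst _ _)]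
  intro u v hu hv huv hd
  by_contra hnot
  push Not at hnot
  obtain ⟨hnu, hnv⟩ := hnot
  obtain ⟨y1, hy1, hy1u⟩ := Set.not_subset.1 hnu
  obtain ⟨y2, hy2, hy2v⟩ := Set.not_subset.1 hnv
  have hy1v : y1 ∈ v := (huv hy1).resolve_left hy1u
  have hy2u : y2 ∈ u := (huv hy2).resolve_right hy2v
  obtain ⟨δ, hδ, hdis⟩ := hd.exists_thickenings hu.isCompact hv
  have h1 := sub_of_open F (S := S)
    ((Metric.isOpen_thickening (δ := δ / 2) (E := u)).union
      (Metric.isOpen_thickening (δ := δ / 2) (E := v)))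
    (huv.trans (Set.union_subset_union (Metric.self_subset_thickening (by positivity) _)
      (Metric.self_subset_thickening (by positivity) _)))
  have h2 : ∀ᶠ n : ℕ in (F : Filter ℕ), 1 / ((n : ℝ) + 1) < δ / 2 := by
    have h3 : Tendsto (fun n : ℕ => 1 / ((n : ℝ) + 1)) atTop (𝓝 0) :=
      tendsto_one_div_add_atTop_nhds_zero_nat
    exact hF ((tendsto_order.1 h3).2 _ (by positivity))
  obtain ⟨n, ⟨⟨h1n, h2n⟩, ⟨p1, ⟨i1, hi1, rfl⟩, hp1⟩⟩, ⟨p2, ⟨i2, hi2, rfl⟩, hp2⟩⟩ :=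
    (((h1.and h2).and (hy1 (δ / 2) (by positivity))).and (hy2 (δ / 2) (by positivity))).exists
  set P : ℕ → Prop := fun i => s n i ∈ Metric.thickening (δ / 2) u with hP
  have hstep : ∀ i, i + 1 < I n → (P i ↔ P (i + 1)) := by
    intro i hi
    have hd1 : dist (s n (i + 1)) (s n i) < δ / 2 := (hs n i hi).trans_lt h2n
    have hcl : ∀ a b : X, a ∈ Metric.thickening (δ / 2) u → dist a b < δ / 2 →
        b ∈ Metric.thickening (δ / 2) u ∪ Metric.thickening (δ / 2) v →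
        b ∈ Metric.thickening (δ / 2) u := by
      intro a b ha hab hb
      refine hb.resolve_right fun hbv => ?_
      rw [Metric.mem_thickening_iff] at ha
      obtain ⟨z, hz, haz⟩ := ha
      have hbu : b ∈ Metric.thickening δ u := by
        rw [Metric.mem_thickening_iff]
        refine ⟨z, hz, ?_⟩
        have := dist_triangle b a z
        rw [dist_comm b a] at this
        linarith
      exact Set.disjoint_left.1 hdis hbu (Metric.thickening_mono (by linarith) _ hbv)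
    constructor
    · intro h
      exact hcl _ _ h (by rw [dist_comm]; exact hd1) (h1n ⟨i + 1, hi, rfl⟩)
    · intro h
      exact hcl _ _ h hd1 (h1n ⟨i, by omega, rfl⟩)
  have hall : ∀ i, i < I n → (P 0 ↔ P i) := by
    intro i
    induction i with
    | zero => intro _; exact Iff.rfl
    | succ i ih =>
      intro hi
      exact (ih (by omega)).trans (hstep i hi)
  have hq2 : P i2 := by
    rw [hP]
    exact Metric.mem_thickening_iff.2 ⟨y2, hy2u, hp2⟩
  have hq1 : ¬ P i1 := by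
    intro h
    have h3 : s n i1 ∈ Metric.thickening δ u := Metric.thickening_mono (by linarith) _ h
    have h4 : s n i1 ∈ Metric.thickening δ v := by
      rw [Metric.mem_thickening_iff]
      exact ⟨y1, hy1v, by linarith⟩
    exact Set.disjoint_left.1 hdis h3 h4
  exact hq1 ((hall i1 hi1).1 ((hall i2 hi2).2 hq2))

end LimM

open LimM

/-- LIM. -/
theorem specLim : SpecLim := by
  classical
  intro X _ _ f U e C a e₀ R hT he₀ hee h
  -- the chains
  have hch : ∀ n : ℕ, ∃ (K : ℕ) (s : ℕ → X), (∀ i ≤ K, ev f n (s i) ∉ U) ∧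
      (∀ i < K, Link f (1 / ((n : ℝ) + 1)) (1 / ((n : ℝ) + 1)) (s i) (s (i + 1))) ∧
      ∃ i ≤ K, ∃ j : ℕ, n ≤ j ∧ e₀ < dist (ev f (-(j : ℤ)) (s i)) (ev f (-(j : ℤ)) (s 0)) := by
    intro n
    have h1 := h (1 / ((n : ℝ) + 1)) n n (by positivity)
    unfold Tame at h1
    push Not at h1
    obtain ⟨K, s, h2, h3, i, hi, j, hj, h4⟩ := h1
    exact ⟨K, s, h2, h3, i, hi, j, hj, h4⟩
  choose K s hU hl hw using hch
  obtain ⟨F, hF⟩ := Ultrafilter.exists_le (atTop : Filter ℕ)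
  obtain ⟨x, hx⟩ : ∃ x, Tendsto (fun n => s n 0) F (𝓝 x) := by
    have h4 := isCompact_univ.ultrafilter_le_nhds (F.map fun n => s n 0) (by simp)
    obtain ⟨y, -, hy⟩ := h4
    exact ⟨y, hy⟩
  have hF1 : ∀ n₀ : ℕ, ∀ᶠ n in (F : Filter ℕ), n₀ ≤ n := fun n₀ => hF (eventually_ge_atTop n₀)
  -- limits of points of the chains belong to the repeller
  have hrep : ∀ y : X, (∀ ε : ℝ, 0 < ε → ∀ᶠ n in (F : Filter ℕ), ∃ i ≤ K n, dist (s n i) y < ε) →
      y ∈ Rep f U := by
    intro y hy m hm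
    have h1 : IsOpen (ev f m ⁻¹' U) := hT.isOpen.preimage (continuous_ev _)
    obtain ⟨ε, hε, hb⟩ := Metric.isOpen_iff.1 h1 y hm
    obtain ⟨n, ⟨i, hi, hd⟩, hn⟩ := ((hy ε hε).and (hF1 m)).exists
    have h2 : ev f m (s n i) ∈ U := hb hd
    have h3 := hT.fwd h2 (n - m)
    rw [← ev_add, show ((n - m : ℕ) : ℤ) + (m : ℤ) = n by omega] at h3
    exact hU n i hi h3
  refine ⟨x, hrep x fun ε hε => ?_, fun j => ?_⟩
  · filter_upwards [(Metric.tendsto_nhds.1 hx) ε hε] with n hn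
    exact ⟨0, Nat.zero_le _, hn⟩
  -- the first exit at the times `≥ j`
  set Q : ℕ → ℕ → Prop := fun n i => ∃ t : ℕ, j ≤ t ∧
    e₀ < dist (ev f (-(t : ℤ)) (s n i)) (ev f (-(t : ℤ)) (s n 0)) with hQ
  have hexit : ∀ n, ∃ I : ℕ, I ≤ K n ∧ (j ≤ n → Q n I ∧ ∀ i < I, ¬ Q n i) := by
    intro n
    by_cases hn : j ≤ n
    · obtain ⟨i, hi, t, ht, hd⟩ := hw n
      have hex : ∃ i, Q n i := ⟨i, t, hn.trans ht, hd⟩
      exact ⟨Nat.find hex, (Nat.find_le ⟨t, hn.trans ht, hd⟩).trans hi, fun _ =>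
        ⟨Nat.find_spec hex, fun i' hi' => Nat.find_min hex hi'⟩⟩
    · exact ⟨0, Nat.zero_le _, fun h => absurd h hn⟩
  choose I hIK hI using hexit
  -- the constant `c₀`
  obtain ⟨c₀, hc₀⟩ : ∃ c₀ : ℕ, ∀ c : ℕ, c₀ ≤ c → C * Real.exp (-(a * c)) * e₀ < e₀ / 2 := by
    have h2 : Tendsto (fun n : ℕ => a * (n : ℝ)) atTop atTop :=
      Tendsto.const_mul_atTop R.a0 tendsto_natCast_atTop_atTop
    have h3 := (Real.tendsto_exp_neg_atTop_nhds_zero.comp h2)
    have h4 := (h3.const_mul C).mul_const e₀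
    rw [mul_zero, zero_mul] at h4
    have h5 := (tendsto_order.1 h4).2 (e₀ / 2) (by positivity)
    exact eventually_atTop.1 h5
  have hsmall : ∀ᶠ n : ℕ in (F : Filter ℕ), 1 / ((n : ℝ) + 1) < e₀ / 2 := by
    have h3 : Tendsto (fun n : ℕ => 1 / ((n : ℝ) + 1)) atTop (𝓝 0) :=
      tendsto_one_div_add_atTop_nhds_zero_nat
    exact hF ((tendsto_order.1 h3).2 _ (by positivity))
  -- the exit index is positive and the exit time is less than `j + c₀`
  have hIpos : ∀ n, j ≤ n → 0 < I n := by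
    intro n hn
    obtain ⟨⟨t, -, hd⟩, -⟩ := hI n hn
    rcases Nat.eq_zero_or_pos (I n) with h0 | h0
    · rw [h0, dist_self] at hd
      linarith
    · exact h0
  have htime : ∀ᶠ n in (F : Filter ℕ), ∃ t ∈ Finset.range (j + c₀), j ≤ t ∧
      e₀ < dist (ev f (-(t : ℤ)) (s n (I n))) (ev f (-(t : ℤ)) (s n 0)) := by
    filter_upwards [hsmall, hF1 j] with n hn hjn
    obtain ⟨⟨t, ht, hd⟩, hlt⟩ := hI n hjn
    have hIKn := hIK n
    refine ⟨t, ?_, ht, hd⟩
    rw [Finset.mem_range]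
    by_contra hge
    push Not at hge
    have hI0 := hIpos n hjn
    obtain ⟨c, rfl⟩ := Nat.exists_eq_add_of_le ht
    have hc : c₀ ≤ c := by omega
    have h1 : ev f (-(j : ℤ)) (s n (I n - 1)) ∈ Sp f.symm e (ev f (-(j : ℤ)) (s n 0)) := by
      rw [mem_Sp_symm]
      intro k
      rw [← ev_add, ← ev_add]
      have h2 := hlt (I n - 1) (by omega)
      simp only [hQ] at h2
      push Not at h2
      have h3 := h2 (j + k) (by omega)
      rw [show -(k : ℤ) + -(j : ℤ) = -((j + k : ℕ) : ℤ) by push_cast; ring]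
      exact h3.trans hee
    have h2 := R.un _ _ h1 c
    have h3 : dist (ev f (-(j : ℤ)) (s n (I n - 1))) (ev f (-(j : ℤ)) (s n 0)) ≤ e₀ := by
      have h2 := hlt (I n - 1) (by omega)
      simp only [hQ] at h2
      push Not at h2
      exact h2 j le_rfl
    have h4 : C * Real.exp (-(a * c)) * dist (ev f (-(j : ℤ)) (s n (I n - 1)))
        (ev f (-(j : ℤ)) (s n 0)) ≤ C * Real.exp (-(a * c)) * e₀ := by
      have hC := R.C1
      exact mul_le_mul_of_nonneg_left h3 (by positivity)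
    have h5 := hc₀ c hc
    rw [← ev_add, ← ev_add, show -(c : ℤ) + -(j : ℤ) = -((j + c : ℕ) : ℤ) by
      push_cast; ring] at h2
    have h6 := (hl n (I n - 1) (by omega)).2
    rw [Nat.sub_add_cancel hI0, mem_Sp_symm] at h6
    have h7 := h6 (j + c)
    have h8 := dist_triangle (ev f (-((j + c : ℕ) : ℤ)) (s n (I n)))
      (ev f (-((j + c : ℕ) : ℤ)) (s n (I n - 1))) (ev f (-((j + c : ℕ) : ℤ)) (s n 0))
    linarith
  obtain ⟨t, ht, htF⟩ : ∃ t ∈ Finset.range (j + c₀), ∀ᶠ n in (F : Filter ℕ), j ≤ t ∧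
      e₀ < dist (ev f (-(t : ℤ)) (s n (I n))) (ev f (-(t : ℤ)) (s n 0)) := by
    by_contra hnot
    have hnot : ∀ t ∈ Finset.range (j + c₀), ¬ ∀ᶠ n in (F : Filter ℕ), j ≤ t ∧
        e₀ < dist (ev f (-(t : ℤ)) (s n (I n))) (ev f (-(t : ℤ)) (s n 0)) :=
      fun t ht h => hnot ⟨t, ht, h⟩
    have h1 : ∀ᶠ n in (F : Filter ℕ), ∀ t ∈ Finset.range (j + c₀), ¬ (j ≤ t ∧
        e₀ < dist (ev f (-(t : ℤ)) (s n (I n))) (ev f (-(t : ℤ)) (s n 0))) := by
      rw [Filter.eventually_all_finset]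
      intro t ht
      exact Ultrafilter.eventually_not.2 (hnot t ht)
    obtain ⟨n, h2, t, ht, h3⟩ := (h1.and htime).exists
    exact h2 t ht h3
  -- the continuum
  set S : ℕ → Set X := fun n => {p | ∃ i < I n, s n i = p} with hS
  set L : Set X := Lst F S with hL
  have hLrep : L ⊆ Rep f U := by
    intro y hy
    apply hrep y
    intro ε hε
    filter_upwards [hy ε hε, hF1 j] with n hn hjn
    obtain ⟨p, ⟨i, hi, rfl⟩, hd⟩ := hn
    exact ⟨i, hi.le.trans (hIK n), hd⟩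
  have hxL : x ∈ L := by
    refine lim_mem (p := fun n => s n 0) ?_ hx
    filter_upwards [hF1 j] with n hjn
    exact ⟨0, hIpos n hjn, rfl⟩
  have hcon : IsPreconnected L := by
    apply preconn F hF s I
    intro n i hi
    have h1 := (hl n i (by have := hIK n; omega)).1
    exact h1
  have hcomp : IsCompact L := (isClosed_lst _ _).isCompact
  refine ⟨L, hcomp, ⟨⟨x, hxL⟩, hcon⟩, hLrep, hxL, fun y hy i hi => ?_, ?_⟩
  · -- the points of `L` are close to `x` at the times `≥ j`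
    by_contra hgt
    push Not at hgt
    have h1 : IsOpen {q : X × X | e₀ < dist (ev f (-(i : ℤ)) q.1) (ev f (-(i : ℤ)) q.2)} :=
      isOpen_lt continuous_const (((continuous_ev _).comp continuous_fst).dist
        ((continuous_ev _).comp continuous_snd))
    obtain ⟨ε, hε, hb⟩ := Metric.isOpen_iff.1 h1 (y, x) hgt
    obtain ⟨n, ⟨⟨p, ⟨i', hi', rfl⟩, hd⟩, hdx⟩, hjn⟩ :=
      (((hy ε hε).and ((Metric.tendsto_nhds.1 hx) ε hε)).and (hF1 j)).exists
    have h2 : (s n i', s n 0) ∈ Metric.ball (y, x) ε := by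
      rw [Metric.mem_ball, Prod.dist_eq]
      exact max_lt hd hdx
    have h3 := hb h2
    exact (hI n hjn).2 i' hi' ⟨i, hi, h3⟩
  · -- the last point
    obtain ⟨y, hy⟩ : ∃ y, Tendsto (fun n => s n (I n)) F (𝓝 y) := by
      have h4 := isCompact_univ.ultrafilter_le_nhds (F.map fun n => s n (I n)) (by simp)
      obtain ⟨y, -, hy⟩ := h4
      exact ⟨y, hy⟩
    have htj : j ≤ t := (htF.exists).choose_spec.1
    refine ⟨y, ?_, t, htj, ?_⟩
    · intro ε hε
      have h3 : ∀ᶠ n : ℕ in (F : Filter ℕ), 1 / ((n : ℝ) + 1) < ε / 2 := by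
        have h3 : Tendsto (fun n : ℕ => 1 / ((n : ℝ) + 1)) atTop (𝓝 0) :=
          tendsto_one_div_add_atTop_nhds_zero_nat
        exact hF ((tendsto_order.1 h3).2 _ (by positivity))
      filter_upwards [(Metric.tendsto_nhds.1 hy) (ε / 2) (by positivity), h3, hF1 j] with
        n h4 h5 hjn
      have hI0 := hIpos n hjn
      refine ⟨s n (I n - 1), ⟨I n - 1, by omega, rfl⟩, ?_⟩
      have h6 := (hl n (I n - 1) (by have := hIK n; omega)).1
      rw [Nat.sub_add_cancel hI0] at h6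
      have h7 := dist_triangle (s n (I n - 1)) (s n (I n)) y
      rw [dist_comm (s n (I n - 1)) (s n (I n))] at h7
      linarith
    · have h1 : Tendsto (fun n => dist (ev f (-(t : ℤ)) (s n (I n))) (ev f (-(t : ℤ)) (s n 0))) F
          (𝓝 (dist (ev f (-(t : ℤ)) y) (ev f (-(t : ℤ)) x))) :=
        (((continuous_ev _).tendsto y).comp hy).dist (((continuous_ev _).tendsto x).comp hx)
      exact ge_of_tendsto h1 (by filter_upwards [htF] with n hn using hn.2.le)

end Pool.Agent.Lib.MP610fe3.TD
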