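import Pool.Agent.Lib.MP_610fe3_an.TD.Spec

/-!
# No expanding attractors: a bounded number of links at a fixed time (module STB)
-/

open Set Filter Function
open scoped Topology

namespace Pool.Agent.Lib.MP610fe3.TD

open TM N3

universe u

theorem specStb : SpecStb.{u} := by
  intro X _ _ f U e e₁ ε m hT he he₁ hε hst hbr h0
  set r' : ℝ := min e e₁ with hr'
  have hr'0 : 0 < r' := lt_min he he₁
  obtain ⟨K₁, hK₁⟩ := exists_F2 hT he hst hbr he₁ h0 hr'0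
  set r : ℝ := min e ε with hr
  have hr0 : 0 < r := lt_min he hε
  obtain ⟨K₂, hK₂⟩ := h0 r hr0 m
  refine ⟨K₁ * K₂, fun z hz => ?_⟩
  obtain ⟨k, hk, q, hq, t, ht0, htk, ht⟩ := hK₁ z hz
  have hlinks : ∀ i < k, ∃ k' : ℕ, (k' : ℝ) ≤ (K₂ : ℝ) ∧
      Chn f r r k' (ev f m (t i)) (ev f m (t (i + 1))) := by
    intro i hi
    obtain ⟨k', hk', hc⟩ := hK₂ _ _ (Sp_mono (min_le_right _ _) (ht i hi).2)
    exact ⟨k', by exact_mod_cast hk', hc⟩
  obtain ⟨k₁, hk₁, hc₁⟩ := chn_concat (t := fun i => ev f m (t i)) hlinks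
  refine ⟨k₁, ?_, ev f m q, rep_ev hq m, ?_⟩
  · have h1 : (k₁ : ℝ) ≤ ((K₁ * K₂ : ℕ) : ℝ) := by
      refine hk₁.trans ?_
      push_cast
      gcongr
    exact_mod_cast h1
  · have h1 := (hc₁.mono_e (min_le_left _ _)).mono (min_le_right e ε)
    simp only [ht0, htk] at h1
    exact h1

end Pool.Agent.Lib.MP610fe3.TD
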