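import Pool.Agent.Lib.MP_610fe3_an.TD.Spec

/-!
# No expanding attractors: the abstract theorem from the modules
-/

open Set Filter Function
open scoped Topology

namespace Pool.Agent.Lib.MP610fe3.TD

open TM N3

universe u

/-- The repeller contains long unstable continua. -/
theorem core (hItr : SpecItr.{u}) (hLim : SpecLim.{u}) {X : Type u} [MetricSpace X]
    [CompactSpace X] {f : X ≃ₜ X} {U : Set X} {e C a e₁ e₀ : ℝ} (R : Rates f U e C a a a)
    (hT : Trap f U) (hfr : (frontier U).Nonempty) (he₁ : 0 < e₁) (h0 : Reaches₀ f e₁)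
    (h0' : Reaches₀ f.symm e₁) (he₀ : 0 < e₀) (he : e₀ ≤ e)
    (hbr : ∀ x y, dist x y < 4 * e₀ → ∃ z, z ∈ Sp f (e / 4) x ∧ z ∈ Sp f.symm (e / 4) y) :
    Unb f (Rep f U) e₀ :=
  hLim X f U e C a e₀ R hT he₀ he fun _ _ _ hδ₀ => hItr X f U e C a e₁ e₀ _ _ _ R hT hfr he₁ h0 h0'
    he₀ hδ₀ hbr

end Pool.Agent.Lib.MP610fe3.TD
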