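import Pool.Agent.Lib.MP_610fe3_an.N3.Growth

/-!
# No expanding attractors: statements of the modules

Text: `/team-store/MP_610fe3_an_TDISC.md`.  The basic notions are in `N3/Chain.lean` (`Link`, `Chn`,
`Att`, `Rep`, `Trap`), `N3/Min.lean` (`Rates`, `Join`) and `N3/Growth.lean` (`Reaches₀`).
`Rates f U e C a a a` does not depend on `U`: local unstable and local stable sets of size `e` are
contracted with the constants `C`, `a`, and there is a local product structure.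
-/

open Set Filter Function
open scoped Topology

namespace Pool.Agent.Lib.MP610fe3.TD

open TM N3

universe u

/-- Chains of small unstable links inside `{x | f^m₀ x ∉ U}` do not wander: seen at the times
`-j`, `j ≥ J`, they stay `e₀`-close to their first point. -/
def Tame {X : Type*} [MetricSpace X] (f : X ≃ₜ X) (U : Set X) (e₀ δ₀ : ℝ) (m₀ J : ℕ) : Prop :=
  ∀ (K : ℕ) (s : ℕ → X), (∀ i ≤ K, ev f m₀ (s i) ∉ U) →
    (∀ i < K, Link f δ₀ δ₀ (s i) (s (i + 1))) →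
    ∀ i ≤ K, ∀ j : ℕ, J ≤ j → dist (ev f (-(j : ℤ)) (s i)) (ev f (-(j : ℤ)) (s 0)) ≤ e₀

/-- `S` contains arbitrarily long continua of one unstable set, through one point. -/
def Unb {X : Type*} [MetricSpace X] (f : X ≃ₜ X) (S : Set X) (ε : ℝ) : Prop :=
  ∃ x ∈ S, ∀ j : ℕ, ∃ K : Set X, IsCompact K ∧ IsConnected K ∧ K ⊆ S ∧ x ∈ K ∧
    (∀ y ∈ K, ∀ i : ℕ, j ≤ i → dist (ev f (-(i : ℤ)) y) (ev f (-(i : ℤ)) x) ≤ ε) ∧
    ∃ y ∈ K, ∃ i : ℕ, j ≤ i ∧ ε ≤ dist (ev f (-(i : ℤ)) y) (ev f (-(i : ℤ)) x)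

/-- GRP: grouping of links. -/
def SpecGrp : Prop := ∀ (X : Type u) [MetricSpace X] (f : X ≃ₜ X) (U : Set X) (e C a r : ℝ),
  Rates f U e C a a a → 0 < r →
  ∃ k₀ : ℕ, ∀ k ≥ k₀, ∀ (K : ℕ) (p q : X), Chn f e (2 * r) K p q →
    Chn f e r ((K + 1) / 2) (ev f (-(k : ℤ)) p) (ev f (-(k : ℤ)) q)

/-- LEV: points at a small cost are at a small level. -/
def SpecLev : Prop := ∀ (X : Type u) [MetricSpace X] [CompactSpace X] (f : X ≃ₜ X) (U : Set X)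
  (e C a r : ℝ), Rates f U e C a a a → Trap f U → 0 < r →
  (∀ x ∈ U, ∀ y, dist y (f x) ≤ 2 * r → y ∈ U) →
  ∃ k₀ : ℕ, ∀ (n N : ℕ), 1 ≤ n →
    (∀ z ∈ U, ev f (-1) z ∉ U → ∀ K : ℕ, Join f U e r K (ev f n z) → N ≤ K) →
    ∀ (w : X) (K : ℕ), K ≤ N → Join f U e (2 * r) K w → ev f (-((n + k₀ : ℕ) : ℤ)) w ∉ U

/-- STB: the number of links to the repeller at a fixed time is bounded. -/
def SpecStb : Prop := ∀ (X : Type u) [MetricSpace X] [CompactSpace X] (f : X ≃ₜ X) (U : Set X)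
  (e e₁ ε : ℝ) (m : ℕ), Trap f U → 0 < e → 0 < e₁ → 0 < ε →
  (∀ p q, q ∈ Sp f e p → Tendsto (fun n : ℕ => dist (ev f n q) (ev f n p)) atTop (𝓝 0)) →
  (∀ e' : ℝ, 0 < e' → ∃ δ : ℝ, 0 < δ ∧ ∀ x y, dist x y < δ →
    ∃ z, z ∈ Sp f e' x ∧ z ∈ Sp f.symm e' y) →
  Reaches₀ f e₁ →
  ∃ K : ℕ, ∀ z, ev f (-1) z ∉ U → ∃ k ≤ K, Join f U e ε k (ev f m z)

/-- ITR: transport along a stable chain; chains must wander. -/
def SpecItr : Prop := ∀ (X : Type u) [MetricSpace X] [CompactSpace X] (f : X ≃ₜ X) (U : Set X)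
  (e C a e₁ e₀ δ₀ : ℝ) (m₀ J : ℕ), Rates f U e C a a a → Trap f U → (frontier U).Nonempty →
  0 < e₁ → Reaches₀ f e₁ → Reaches₀ f.symm e₁ → 0 < e₀ → 0 < δ₀ →
  (∀ x y, dist x y < 4 * e₀ → ∃ z, z ∈ Sp f (e / 4) x ∧ z ∈ Sp f.symm (e / 4) y) →
  ¬ Tame f U e₀ δ₀ m₀ J

/-- LIM: wandering chains converge to a long continuum. -/
def SpecLim : Prop := ∀ (X : Type u) [MetricSpace X] [CompactSpace X] (f : X ≃ₜ X) (U : Set X)
  (e C a e₀ : ℝ), Rates f U e C a a a → Trap f U → 0 < e₀ → e₀ ≤ e →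
  (∀ (δ₀ : ℝ) (m₀ J : ℕ), 0 < δ₀ → ¬ Tame f U e₀ δ₀ m₀ J) → Unb f (Rep f U) e₀

end Pool.Agent.Lib.MP610fe3.TD
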